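import Mathlib

/-!
# Functions on products of groups which are additive and orthogonal: the abstract argument
-/

set_option autoImplicit false

noncomputable section

namespace Pool.Agent.ZC

open scoped Classical
open Function

/-- A function on a product of groups which is affine in every variable, and whose mixed second
differences vanish at the points of `s`, kills every zero-cycle of degree zero and sum zero
which is supported on `s`. -/
private theorem cycleN_free {I : Type} [Fintype I] {G : I → Type} [∀ i, AddCommGroup (G i)]
    {A : Type} [AddCommGroup A] (c : ((i : I) → G i) → A)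
    (ha : ∀ (x : (i : I) → G i) (i : I) (a b : G i),
      c (update x i (a + b)) - c (update x i a) - c (update x i b) + c (update x i 0) = 0)
    (s : Finset ((i : I) → G i)) (n : ((i : I) → G i) → ℤ)
    (hO : ∀ p ∈ s, ∀ (x : (i : I) → G i) (i j : I), i ≠ j →
      c (update (update x i (p i)) j (p j)) - c (update (update x i (p i)) j 0) -
        c (update (update x i 0) j (p j)) + c (update (update x i 0) j 0) = 0)
    (hd : ∑ p ∈ s, n p = 0) (hs : ∀ i, ∑ p ∈ s, n p • p i = 0) :
    ∑ p ∈ s, n p • c p = 0 := by
  -- the formula for the values
  have hF : ∀ p ∈ s, c p = c 0 + ∑ i, (c (update 0 i (p i)) - c 0) := by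
    intro p hp
    let r : Finset I → ((i : I) → G i) := fun T i => if i ∈ T then p i else 0
    have hr0 : r ∅ = 0 := by
      funext i
      simp [r]
    have hr1 : ∀ (T : Finset I) (i : I), i ∉ T → update (r T) i 0 = r T := by
      intro T i hi
      have : r T i = 0 := by simp [r, hi]
      rw [← this, update_eq_self]
    have hr2 : ∀ (T : Finset I) (i : I), i ∉ T → update (r T) i (p i) = r (insert i T) := by
      intro T i _
      funext l
      by_cases hl : l = i
      · subst hl
        rw [update_self]
        simp [r]
      · rw [update_of_ne hl]
        simp [r, hl]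
    have hD : ∀ (j : I) (T : Finset I), j ∉ T →
        c (update (r T) j (p j)) - c (r T) = c (update 0 j (p j)) - c 0 := by
      intro j T
      induction T using Finset.induction_on with
      | empty =>
        intro _
        rw [hr0]
      | insert i T hi ih =>
        intro hj
        have hij : i ≠ j := by
          rintro rfl
          exact hj (Finset.mem_insert_self _ _)
        have hjT : j ∉ T := fun h => hj (Finset.mem_insert_of_mem h)
        rw [← ih hjT]
        have h1 := hO p hp (r T) i j hij
        rw [hr1 T i hi, hr1 T j hjT, hr2 T i hi, hr1 _ j hj] at h1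
        rw [← sub_eq_zero, ← h1]
        abel
    have hT : ∀ T : Finset I, c (r T) = c 0 + ∑ i ∈ T, (c (update 0 i (p i)) - c 0) := by
      intro T
      induction T using Finset.induction_on with
      | empty => rw [hr0, Finset.sum_empty, add_zero]
      | insert j T hj ih =>
        rw [Finset.sum_insert hj, ← hD j T hj, hr2 T j hj, ih]
        abel
    have h2 := hT Finset.univ
    have h3 : r Finset.univ = p := by
      funext i
      simp [r]
    rw [h3] at h2
    exact h2
  -- the Albanese part
  have hβ : ∀ i : I, ∃ β : G i →+ A, ∀ a, β a = c (update 0 i a) - c 0 := by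
    intro i
    refine ⟨AddMonoidHom.mk' (fun a => c (update 0 i a) - c 0) ?_, fun a => rfl⟩
    intro a b
    have h1 := ha 0 i a b
    have h2 : update (0 : (i : I) → G i) i 0 = 0 := by
      funext l
      by_cases hl : l = i
      · subst hl
        rw [update_self, Pi.zero_apply]
      · rw [update_of_ne hl]
    rw [h2] at h1
    rw [← sub_eq_zero, ← h1]
    abel
  choose β hβ using hβ
  calc ∑ p ∈ s, n p • c p = ∑ p ∈ s, (n p • c 0 + ∑ i, β i (n p • p i)) := by
        refine Finset.sum_congr rfl fun p hp => ?_
        rw [hF p hp, smul_add, Finset.smul_sum]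
        congr 1
        refine Finset.sum_congr rfl fun i _ => ?_
        rw [map_zsmul, hβ]
    _ = (∑ p ∈ s, n p) • c 0 + ∑ i, β i (∑ p ∈ s, n p • p i) := by
        rw [Finset.sum_add_distrib, ← Finset.sum_smul, Finset.sum_comm]
        congr 1
        refine Finset.sum_congr rfl fun i _ => ?_
        rw [map_sum]
    _ = 0 := by
        rw [hd, zero_smul, zero_add]
        refine Finset.sum_eq_zero fun i _ => ?_
        rw [hs i, map_zero]

/-- A function on a product of groups with values in an abelian group which is, up to the factor
`2`, affine in every variable, and for which twice the mixed second differences vanish on given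
sets of generators, kills an explicit multiple of every zero-cycle of degree zero and sum zero
which is supported on the division closures. -/
theorem cycleN_abs {I : Type} [Fintype I] {G : I → Type} [∀ i, AddCommGroup (G i)]
    {A : Type} [AddCommGroup A] (c : ((i : I) → G i) → A)
    (ha : ∀ (x : (i : I) → G i) (i : I) (a b : G i),
      (2 : ℕ) • (c (update x i (a + b)) - c (update x i a) - c (update x i b) +
        c (update x i 0)) = 0)
    (S : (i : I) → Set (G i))
    (hS : ∀ (x : (i : I) → G i) (i j : I), i ≠ j → ∀ a ∈ S i, ∀ b ∈ S j,
      (2 : ℕ) • (c (update (update x i a) j b) - c (update (update x i a) j 0) -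
        c (update (update x i 0) j b) + c (update (update x i 0) j 0)) = 0)
    (m : I → ℕ) (s : Finset ((i : I) → G i)) (n : ((i : I) → G i) → ℤ)
    (hz : ∀ p ∈ s, ∀ i, m i • p i ∈ AddSubgroup.closure (S i))
    (hd : ∑ p ∈ s, n p = 0) (hs : ∀ i, ∑ p ∈ s, n p • p i = 0) :
    (2 * ∏ i, m i) • (∑ p ∈ s, n p • c p) = 0 := by
  -- the bilinear form
  have hB : ∀ (x : (i : I) → G i) (i j : I), i ≠ j → ∃ B : G i →+ (G j →+ A), ∀ a b,
      B a b = (2 : ℕ) • (c (update (update x i a) j b) - c (update (update x i a) j 0) -
        c (update (update x i 0) j b) + c (update (update x i 0) j 0)) := by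
    intro x i j hij
    refine ⟨AddMonoidHom.mk' (fun a => AddMonoidHom.mk' (fun b =>
        (2 : ℕ) • (c (update (update x i a) j b) - c (update (update x i a) j 0) -
          c (update (update x i 0) j b) + c (update (update x i 0) j 0))) ?_) ?_, ?_⟩
    · intro b b'
      have e1 := ha (update x i a) j b b'
      have e2 := ha (update x i 0) j b b'
      rw [← sub_eq_zero]
      have e3 := sub_eq_zero.2 (e1.trans e2.symm)
      rw [← e3]
      abel
    · intro a a'
      ext b
      simp only [AddMonoidHom.mk'_apply, AddMonoidHom.add_apply]
      have e1 := ha (update x j b) i a a'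
      have e2 := ha (update x j 0) i a a'
      simp only [update_comm hij.symm] at e1 e2
      rw [← sub_eq_zero]
      have e3 := sub_eq_zero.2 (e1.trans e2.symm)
      rw [← e3]
      abel
    · intro a b
      rfl
  -- orthogonality on the division closure
  have hO : ∀ (x : (i : I) → G i) (i j : I), i ≠ j → ∀ (a : G i) (b : G j),
      m i • a ∈ AddSubgroup.closure (S i) → m j • b ∈ AddSubgroup.closure (S j) →
      (2 * ∏ i, m i) • (c (update (update x i a) j b) - c (update (update x i a) j 0) -
        c (update (update x i 0) j b) + c (update (update x i 0) j 0)) = 0 := by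
    intro x i j hij a b hma hmb
    obtain ⟨B, hB⟩ := hB x i j hij
    have h1 : ∀ a ∈ S i, ∀ b ∈ AddSubgroup.closure (S j), B a b = 0 := by
      intro a ha
      have : AddSubgroup.closure (S j) ≤ (B a).ker := by
        rw [AddSubgroup.closure_le]
        intro b hb
        exact (hB a b).trans (hS x i j hij a ha b hb)
      exact fun b hb => this hb
    have h2 : ∀ a ∈ AddSubgroup.closure (S i), ∀ b ∈ AddSubgroup.closure (S j), B a b = 0 := by
      intro a ha b hb
      have : AddSubgroup.closure (S i) ≤ (B.flip b).ker := by
        rw [AddSubgroup.closure_le]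
        intro a ha
        exact h1 a ha b hb
      exact this ha
    have h3 := h2 _ hma _ hmb
    rw [map_nsmul, map_nsmul, AddMonoidHom.smul_apply, hB, smul_smul, smul_smul] at h3
    have h4 : m i * m j ∣ ∏ i, m i := by
      rw [← Finset.prod_pair hij]
      exact Finset.prod_dvd_prod_of_subset _ _ _ (Finset.subset_univ _)
    obtain ⟨t, ht⟩ := h4
    have h5 : 2 * ∏ i, m i = t * (m j * m i * 2) := by
      rw [ht]
      ring
    rw [h5, mul_smul, h3, smul_zero]
  have key := cycleN_free (fun x => (2 * ∏ i, m i) • c x)
    (fun x i a b => by
      have h := ha x i a b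
      have h' : (∏ i, m i) • ((2 : ℕ) • (c (update x i (a + b)) - c (update x i a) -
          c (update x i b) + c (update x i 0))) = 0 := by
        rw [h, smul_zero]
      rw [smul_smul, mul_comm] at h'
      rw [← smul_sub, ← smul_sub, ← smul_add]
      exact h') s n
    (fun p hp x i j hij => by
      rw [← smul_sub, ← smul_sub, ← smul_add]
      exact hO x i j hij (p i) (p j) (hz p hp i) (hz p hp j)) hd hs
  rw [← key, Finset.smul_sum]
  refine Finset.sum_congr rfl fun p _ => ?_
  rw [smul_comm]

end Pool.Agent.ZC
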