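import Pool.Agent.ZCN.Push
import Pool.Agent.ZCN.Alg

/-!
# Zero-cycles supported on products of orthogonal groups
-/

set_option autoImplicit false

noncomputable section

namespace Pool.Agent.ZC

open Polynomial WeierstrassCurve
open scoped Classical
open Function

theorem cycleN {k : Type} [Field k] {I : Type} [Fintype I] (W : I → WeierstrassCurve k)
    (h1 : ∀ (i : I) (x y : (W i).toAffine.Point),
      (2 : ℕ) • (Finsupp.single (x + y, (0 : (W i).toAffine.Point)) (1 : ℤ) -
        Finsupp.single (x, 0) 1 - Finsupp.single (y, 0) 1 + Finsupp.single (0, 0) 1) ∈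
        RatEq (W i) (W i))
    (S : (i : I) → Set (W i).toAffine.Point)
    (hS : ∀ (i j : I), i ≠ j → ∀ P ∈ S i, ∀ Q ∈ S j, (2 : ℕ) • sym P Q ∈ RatEq (W i) (W j))
    (m : I → ℕ) (z : Z0N W)
    (hz : ∀ p ∈ z.support, ∀ i, m i • p i ∈ AddSubgroup.closure (S i))
    (hd : z.sum (fun _ n => n) = 0) (hs : ∀ i, z.sum (fun p n => n • p i) = 0) :
    (2 * ∏ i, m i) • z ∈ RatEqN W := by
  let π : Z0N W →+ Z0N W ⧸ RatEqN W := QuotientAddGroup.mk' (RatEqN W)
  have hπ : ∀ z, π z = 0 ↔ z ∈ RatEqN W := fun z => QuotientAddGroup.eq_zero_iff z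
  have key := cycleN_abs (fun p => π (Finsupp.single p (1 : ℤ)))
    (fun x i a b => by
      have h := (hπ _).2 (RatEqN.push1 x i (h1 i a b))
      have e : Finsupp.mapDomain (fun ab : (W i).toAffine.Point × (W i).toAffine.Point =>
          update x i ab.1) ((2 : ℕ) • (Finsupp.single (a + b, (0 : (W i).toAffine.Point)) (1 : ℤ) -
            Finsupp.single (a, 0) 1 - Finsupp.single (b, 0) 1 + Finsupp.single (0, 0) 1)) =
          (2 : ℕ) • ((Finsupp.single (update x i (a + b)) (1 : ℤ) -
            Finsupp.single (update x i a) 1 - Finsupp.single (update x i b) 1 +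
            Finsupp.single (update x i 0) 1 : Z0N W)) := by
        have h := map_nsmul (Finsupp.mapDomain.addMonoidHom
          (fun ab : (W i).toAffine.Point × (W i).toAffine.Point => update x i ab.1) :
            Z0 (W i) (W i) →+ Z0N W) 2
          (Finsupp.single (a + b, (0 : (W i).toAffine.Point)) (1 : ℤ) -
            Finsupp.single (a, 0) 1 - Finsupp.single (b, 0) 1 + Finsupp.single (0, 0) 1)
        rw [map_add, map_sub, map_sub] at h
        simp only [Finsupp.mapDomain.addMonoidHom_apply, Finsupp.mapDomain_single] at h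
        exact h
      rw [e, map_nsmul, map_add, map_sub, map_sub] at h
      exact h) S
    (fun x i j hij a ha b hb => by
      have h := (hπ _).2 (RatEqN.push2 x hij (hS i j hij a ha b hb))
      have e : Finsupp.mapDomain (ins2 x i j) ((2 : ℕ) • sym a b) =
          (2 : ℕ) • ((Finsupp.single (update (update x i a) j b) (1 : ℤ) -
            Finsupp.single (update (update x i a) j 0) 1 -
            Finsupp.single (update (update x i 0) j b) 1 +
            Finsupp.single (update (update x i 0) j 0) 1 : Z0N W)) := by
        have h := map_nsmul (Finsupp.mapDomain.addMonoidHom (ins2 x i j) :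
            Z0 (W i) (W j) →+ Z0N W) 2 (sym a b)
        unfold sym at h
        rw [map_add, map_sub, map_sub] at h
        simp only [Finsupp.mapDomain.addMonoidHom_apply, Finsupp.mapDomain_single] at h
        exact h
      rw [e, map_nsmul, map_add, map_sub, map_sub] at h
      exact h) m z.support z hz hd hs
  rw [← hπ, map_nsmul]
  have e : π z = ∑ p ∈ z.support, z p • π (Finsupp.single p (1 : ℤ)) := by
    conv_lhs => rw [← Finsupp.sum_single z]
    rw [Finsupp.sum, map_sum]
    apply Finset.sum_congr rfl
    intro p _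
    rw [← map_zsmul]
    congr 1
    rw [Finsupp.smul_single, smul_eq_mul, mul_one]
  rw [e]
  exact key

end Pool.Agent.ZC
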