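import Pool.Agent.ZCInf.Final
import Pool.Agent.ZCN.Cycle

/-!
# Zero-cycles on products of elliptic curves over `ℚ̄`
-/

set_option autoImplicit false

noncomputable section

namespace Pool.Agent.ZC

open Polynomial WeierstrassCurve
open scoped Classical

/-- Zero-cycles on products of elliptic curves over `ℚ̄`. -/
theorem resultN_aux (E₀ : WeierstrassCurve (AlgebraicClosure ℚ)) [E₀.IsElliptic]
    (P₀ : E₀.toAffine.Point) :
    ∃ G : (E : WeierstrassCurve (AlgebraicClosure ℚ)) → AddSubgroup E.toAffine.Point,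
      (∃ n : ℕ, 0 < n ∧ n • P₀ ∈ G E₀) ∧
      (∀ (E E' : WeierstrassCurve (AlgebraicClosure ℚ))
        (φ : E.toAffine.Point →+ E'.toAffine.Point), Lift (fun P => φ P) →
        ∀ a ∈ G E, φ a ∈ G E') ∧
      (∀ (E : WeierstrassCurve (AlgebraicClosure ℚ)) [E.IsElliptic],
        ∃ P : ℕ → E.toAffine.Point, LinearIndependent ℤ P ∧ ∀ i, P i ∈ G E) ∧
      ∀ (N : ℕ) (E : Fin N → WeierstrassCurve (AlgebraicClosure ℚ)), (∀ i, (E i).IsElliptic) →
        ∀ (m : Fin N → ℕ) (z : Z0N E), (∀ p ∈ z.support, ∀ i, m i • p i ∈ G (E i)) →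
        z.sum (fun _ a => a) = 0 → (∀ i, z.sum (fun p a => a • p i) = 0) →
        (2 * ∏ i, m i) • z ∈ RatEqN E := by
  obtain ⟨ι, -⟩ := exists_iota
  obtain ⟨l₀, hl0, hl1, hl, -, φ₀, hφ₀, hL₀⟩ := exists_leg2 ι E₀
  obtain ⟨Q₀, rfl⟩ := hφ₀.2 P₀
  obtain ⟨u, N, hu1, hu, hN, hQ⟩ := exists_start ι l₀ hl hl1 Q₀
  have himg : ∀ (E E' : WeierstrassCurve (AlgebraicClosure ℚ))
      (φ : E.toAffine.Point →+ E'.toAffine.Point), Lift (fun P => φ P) →
      ∀ a ∈ AddSubgroup.closure (SetE E u), φ a ∈ AddSubgroup.closure (SetE E' u) := by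
    intro E E' φ hφ a ha
    have hle : AddSubgroup.closure (SetE E u) ≤
        (AddSubgroup.closure (SetE E' u)).comap φ := by
      rw [AddSubgroup.closure_le]
      intro b hb
      exact AddSubgroup.subset_closure (SetE.image hφ (map_zero φ) hb)
    exact hle ha
  refine ⟨fun E => AddSubgroup.closure (SetE E u), ⟨N, hN, ?_⟩, himg, ?_, ?_⟩
  · rw [← map_nsmul]
    exact himg _ _ φ₀ hL₀ _ hQ
  · intro E _
    obtain ⟨l, _, hl1, hl, -, φ, hφ, hL⟩ := exists_leg2 ι E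
    obtain ⟨P, hP, hPS⟩ := many ι l u hl hl1 hu1 hu
    refine ⟨fun i => φ (P i), hP.map_injOn φ.toIntLinearMap (fun a _ b _ h => hφ.1 h),
      fun i => AddSubgroup.subset_closure (SetE.image hL (map_zero φ) (hPS i))⟩
  · intro N E hE m z hz hd hs
    refine cycleN E (fun i x y => ?_) (fun i => SetE (E i) u)
      (fun i j _ P hP Q hQ => SetE.sym hP hQ) m z hz hd hs
    have := hE i
    exact two_add_left (E i) x y 0

end Pool.Agent.ZC
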