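import Pool.Agent.ZC.Defs

/-!
# Zero-cycles on a product of finitely many Weierstrass curves

The same definitions as in `Pool.Agent.ZC.Defs`, for a finite family of curves.
-/

set_option autoImplicit false

noncomputable section

namespace Pool.Agent.ZC

open Polynomial WeierstrassCurve
open scoped Classical

variable {k : Type} [Field k] {I : Type}

/-- The `k`-rational points of the product of the Weierstrass curves `W i`. -/
abbrev PtN (W : I → WeierstrassCurve k) : Type := (i : I) → (W i).toAffine.Point

/-- Zero-cycles on the product of the Weierstrass curves `W i` supported on `k`-rational points. -/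
abbrev Z0N (W : I → WeierstrassCurve k) : Type := PtN W →₀ ℤ

/-- `z` is the divisor of a rational function `g` on a curve `C` with function field `F`, pushed
forward to the product of the `W i` by a morphism from `C` to the product, i.e. by a family of
`F`-valued points. -/
def DivOfN (W : I → WeierstrassCurve k) (z : Z0N W) : Prop :=
  ∃ (F : Type) (_ : Field F) (_ : Algebra k F) (P : (i : I) → ((W i)⁄F).toAffine.Point) (g : F)
    (S : Finset (ValuationSubring F)) (n : ValuationSubring F → ℤ)
    (p : ValuationSubring F → PtN W),
    IsCurve k F ∧ g ≠ 0 ∧ (∀ O, IsPlace k O → O ∉ S → O.valuation g = 1) ∧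
    (∀ O ∈ S, IsPlace k O ∧ HasOrd O g (n O) ∧ ∀ i, SpecAt O (W i) (P i) (p O i)) ∧
    z = ∑ O ∈ S, Finsupp.single (p O) (n O)

/-- The zero-cycles on the product of the `W i` which are rationally equivalent to zero. -/
def RatEqN (W : I → WeierstrassCurve k) : AddSubgroup (Z0N W) :=
  AddSubgroup.closure {z | DivOfN W z}

end Pool.Agent.ZC
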