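import Pool.Agent.ZCN.Defs
import Pool.Agent.ZC.Push

/-!
# Zero-cycles on two factors of a product
-/

set_option autoImplicit false

noncomputable section

namespace Pool.Agent.ZC

open Polynomial WeierstrassCurve
open scoped Classical

variable {k : Type} [Field k] {I : Type}

/-- insert two coordinates -/
def ins2 {W : I → WeierstrassCurve k} (x : PtN W) (i j : I)
    (ab : (W i).toAffine.Point × (W j).toAffine.Point) : PtN W :=
  Function.update (Function.update x i ab.1) j ab.2

theorem RatEqN.push2 {W : I → WeierstrassCurve k} (x : PtN W) {i j : I} (hij : i ≠ j)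
    {z : Z0 (W i) (W j)} (hz : z ∈ RatEq (W i) (W j)) :
    Finsupp.mapDomain (ins2 x i j) z ∈ RatEqN W := by
  have hle : RatEq (W i) (W j) ≤ (RatEqN W).comap
      (Finsupp.mapDomain.addMonoidHom (ins2 x i j) : Z0 (W i) (W j) →+ Z0N W) := by
    unfold RatEq
    rw [AddSubgroup.closure_le]
    rintro z ⟨F, iF, iA, P, Q, g, S, n, p, q, hC, hg, hS, hS', rfl⟩
    refine AddSubgroup.subset_closure ?_
    have hc : ∀ l : I, ∃ A : ((W l)⁄F).toAffine.Point, ∀ O : ValuationSubring F, IsPlace k O →
        SpecAt O (W l) A (x l) := fun l => exists_const (x l) F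
    choose A hA using hc
    refine ⟨F, iF, iA, Function.update (Function.update A i P) j Q, g, S, n,
      fun O => ins2 x i j (p O, q O), hC, hg, hS, ?_, ?_⟩
    · intro O hO
      obtain ⟨a1, a2, a3, a4⟩ := hS' O hO
      refine ⟨a1, a2, fun l => ?_⟩
      by_cases hj : l = j
      · subst hj
        simp only [ins2, Function.update_self]
        exact a4
      · simp only [ins2]
        rw [Function.update_of_ne hj, Function.update_of_ne hj]
        by_cases hi : l = i
        · subst hi
          rw [Function.update_self, Function.update_self]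
          exact a3
        · rw [Function.update_of_ne hi, Function.update_of_ne hi]
          exact hA l O a1
    · rw [map_sum]
      refine Finset.sum_congr rfl fun O _ => ?_
      exact Finsupp.mapDomain_single
  exact hle hz

theorem RatEqN.push1 {W : I → WeierstrassCurve k} {W' : WeierstrassCurve k} (x : PtN W) (i : I)
    {z : Z0 (W i) W'} (hz : z ∈ RatEq (W i) W') :
    Finsupp.mapDomain (fun ab : (W i).toAffine.Point × W'.toAffine.Point =>
      Function.update x i ab.1) z ∈ RatEqN W := by
  have hle : RatEq (W i) W' ≤ (RatEqN W).comap
      (Finsupp.mapDomain.addMonoidHom (fun ab : (W i).toAffine.Point × W'.toAffine.Point =>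
        Function.update x i ab.1) : Z0 (W i) W' →+ Z0N W) := by
    unfold RatEq
    rw [AddSubgroup.closure_le]
    rintro z ⟨F, iF, iA, P, Q, g, S, n, p, q, hC, hg, hS, hS', rfl⟩
    refine AddSubgroup.subset_closure ?_
    have hc : ∀ l : I, ∃ A : ((W l)⁄F).toAffine.Point, ∀ O : ValuationSubring F, IsPlace k O →
        SpecAt O (W l) A (x l) := fun l => exists_const (x l) F
    choose A hA using hc
    refine ⟨F, iF, iA, Function.update A i P, g, S, n,
      fun O => Function.update x i (p O), hC, hg, hS, ?_, ?_⟩
    · intro O hO
      obtain ⟨a1, a2, a3, a4⟩ := hS' O hO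
      refine ⟨a1, a2, fun l => ?_⟩
      by_cases hi : l = i
      · subst hi
        simp only [Function.update_self]
        exact a3
      · simp only []
        rw [Function.update_of_ne hi, Function.update_of_ne hi]
        exact hA l O a1
    · rw [map_sum]
      refine Finset.sum_congr rfl fun O _ => ?_
      exact Finsupp.mapDomain_single
  exact hle hz

end Pool.Agent.ZC
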